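import Pool.Agent.D0H36.LW.Stm3

/-! (SM2): the set of the shifts which almost keep the distribution is a subgroup. -/

set_option autoImplicit false

namespace Pool.Agent.D0H70.LW

open Polynomial Pool.Agent.H207R2.BL Pool.Agent.D0H36.BL Pool.Agent.D0H36.LW
open Pool.Agent.R814.BL (Cl)

theorem flat_zero (f : ℝ[X] → Multiplicative ℝ) : Flat f 0 0 := by
  intro n _ T
  simp

theorem flat_add {f : ℝ[X] → Multiplicative ℝ} {g g' C C' : ℝ} (h : Flat f g C)
    (h' : Flat f g' C') : Flat f (g + g') (C + C') := by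
  intro n hn T
  have h1 := h n hn T
  have h2 := h' n hn {y | y + g ∈ T}
  simp only [Set.mem_ofPred_eq] at h2
  have h3 : (fun G : SimpleGraph (Fin n) => (f (chr G)).toAdd + (g + g') ∈ T) =
      (fun G => (f (chr G)).toAdd + g' + g ∈ T) := by
    funext G
    rw [add_assoc, add_comm g' g]
  rw [h3, add_div]
  have h4 := abs_add_le (share Cl n (fun G => (f (chr G)).toAdd ∈ T) -
      share Cl n (fun G => (f (chr G)).toAdd + g ∈ T))
    (share Cl n (fun G => (f (chr G)).toAdd + g ∈ T) -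
      share Cl n (fun G => (f (chr G)).toAdd + g' + g ∈ T))
  rw [sub_add_sub_cancel] at h4
  exact h4.trans (add_le_add h1 h2)

theorem flat_neg {f : ℝ[X] → Multiplicative ℝ} {g C : ℝ} (h : Flat f g C) : Flat f (-g) C := by
  intro n hn T
  have h2 := h n hn {y | y - g ∈ T}
  simp only [Set.mem_ofPred_eq, add_sub_cancel_right] at h2
  rw [abs_sub_comm]
  simpa only [sub_eq_add_neg] using h2

/-- the subgroup -/
def D (f : ℝ[X] → Multiplicative ℝ) : AddSubgroup ℝ where
  carrier := {g | ∃ C : ℝ, Flat f g C}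
  zero_mem' := ⟨0, flat_zero f⟩
  add_mem' := fun ⟨_, h⟩ ⟨_, h'⟩ => ⟨_, flat_add h h'⟩
  neg_mem' := fun ⟨_, h⟩ => ⟨_, flat_neg h⟩

/-- the function modulo `D` -/
def φ (f : ℝ[X] → Multiplicative ℝ) (p : ℝ[X]) : Multiplicative (ℝ ⧸ D f) :=
  Multiplicative.ofAdd (QuotientAddGroup.mk (f p).toAdd)

theorem t_SM2 : S_TRIV → S_SM1 → S_SM2 := by
  intro hT hS f hf hX hX1 V _ G hG
  have hmul : IsMul (φ f) := by
    obtain ⟨S, h1, h2, h3, h4, h5⟩ := hf
    refine ⟨S, h1, h2, h3, h4, ?_⟩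
    intro p hp q hq
    unfold φ
    rw [h5 p hp q hq, toAdd_mul, ← ofAdd_add]
    rfl
  have htriv : Triv (φ f) := by
    intro h A B hA hB hA2 hB2
    obtain ⟨C, hC⟩ := hS f hf h A B hA hB hA2 hB2
    unfold φ
    congr 1
    rw [QuotientAddGroup.eq]
    refine ⟨C, ?_⟩
    have e : -(f (chr A)).toAdd + (f (chr B)).toAdd = (f (chr B)).toAdd - (f (chr A)).toAdd := by
      ring
    rw [e]
    exact hC
  obtain ⟨c, d, _, _, _, h⟩ := hT _ (φ f) hmul htriv V G hG
  have e1 : φ f X = 1 := by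
    unfold φ
    rw [hX]
    rfl
  have e2 : φ f (X - 1) = 1 := by
    unfold φ
    rw [hX1]
    rfl
  rw [e1, e2, one_pow, one_pow, one_mul] at h
  have h2 : (QuotientAddGroup.mk (f (chr G)).toAdd : ℝ ⧸ D f) = 0 := Multiplicative.ofAdd.injective h
  rw [QuotientAddGroup.eq_zero_iff] at h2
  exact h2

end Pool.Agent.D0H70.LW
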